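import Pool.Agent.P.MP_70cdcc_lc.Red

/-- For every `k ≥ 3`, the `k`-visit directional walk problem is complete for the existential
theory of the reals. -/
theorem Pool.Agent.Results.MP_70cdcc_lc.ThreeVisits.result : ∀ k : ℕ, 3 ≤ k →
    N793a5b8e.IsCompleteFor Pool.Agent.Lib.ETR.ExistsR (Pool.Agent.P.MP_70cdcc_lc.DW k) :=
  fun k hk => ⟨Pool.Agent.P.MP_70cdcc_lc.dw_mem k, Pool.Agent.P.MP_70cdcc_lc.dw_hard hk⟩
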